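import Mathlib
import Pool.Agent.W17.NF.Stm

/-! NF-BAL and NF-UC: units balancing a vector; counting units. -/

namespace Pool.Agent.W340.NF

open NumberField Module Pool.Agent.W17.NF
open NumberField.InfinitePlace NumberField.Units NumberField.Units.dirichletUnitTheorem

variable (K : Type) [Field K] [NumberField K]

open scoped Classical

set_option linter.unusedSectionVars false

/-- the real basis of the log space -/
noncomputable def rb : Basis (Fin (rank K)) ℝ (logSpace K) :=
  (basisUnitLattice K).ofZLatticeBasis ℝ (unitLattice K)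

/-- every vector of the log space is near the log of a unit -/
lemma near : ∃ C : ℝ, 0 ≤ C ∧ ∀ x : logSpace K, ∃ u : (𝓞 K)ˣ,
    ∀ w, |logEmbedding K (Additive.ofMul u) w - x w| ≤ C := by
  refine ⟨∑ i, ‖rb K i‖, Finset.sum_nonneg fun i _ => norm_nonneg _, fun x => ?_⟩
  have h1 := ZSpan.norm_fract_le (rb K) x
  have h2 : ((ZSpan.floor (rb K) x : Submodule.span ℤ (Set.range (rb K))) : logSpace K) ∈
      unitLattice K := by
    have h3 := (ZSpan.floor (rb K) x).2
    have h4 := (basisUnitLattice K).ofZLatticeBasis_span ℝ (unitLattice K)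
    have h5 : Submodule.span ℤ (Set.range (rb K)) = unitLattice K := h4
    exact h5.le h3
  obtain ⟨u, -, hu⟩ := h2
  refine ⟨u.toMul, fun w => ?_⟩
  have h6 : logEmbedding K u = ((ZSpan.floor (rb K) x :
    Submodule.span ℤ (Set.range (rb K))) : logSpace K) := hu
  have h7 : logEmbedding K (Additive.ofMul u.toMul) w - x w = -(ZSpan.fract (rb K) x w) := by
    rw [ZSpan.fract_apply, Pi.sub_apply, ← h6, ofMul_toMul]
    ring
  rw [h7, abs_neg, ← Real.norm_eq_abs]
  exact (norm_le_pi_norm _ w).trans h1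

lemma sum_mult_real : ∑ w : InfinitePlace K, (mult w : ℝ) = dg K := by
  have := InfinitePlace.sum_mult_eq (K := K)
  rw [← Nat.cast_sum, this]

lemma dg_pos : 0 < dg K := by
  have : 0 < Module.finrank ℚ K := Module.finrank_pos
  exact_mod_cast this

lemma one_le_mult_real (w : InfinitePlace K) : (1 : ℝ) ≤ mult w := by
  exact_mod_cast one_le_mult (w := w)

theorem stmtBal : StmtBal K := by
  obtain ⟨C, hC, hnear⟩ := near K
  set n : ℝ := (Fintype.card {w : InfinitePlace K // w ≠ w₀} : ℝ) with hn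
  have hn0 : 0 ≤ n := Nat.cast_nonneg _
  refine ⟨Real.exp (C + n * C), Real.one_le_exp (by positivity), fun y hy => ?_⟩
  set Y : ℝ := (∏ w, y w ^ w.mult) ^ (1 / dg K) with hY
  have hP : 0 < ∏ w, y w ^ w.mult := Finset.prod_pos fun w _ => pow_pos (hy w) _
  have hYpos : 0 < Y := Real.rpow_pos_of_pos hP _
  have hd := dg_pos K
  have hlogY : dg K * Real.log Y = ∑ w : InfinitePlace K, (mult w : ℝ) * Real.log (y w) := by
    rw [hY, Real.log_rpow hP, Real.log_prod (fun w _ => (pow_pos (hy w) _).ne')]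
    rw [← mul_assoc, mul_one_div_cancel hd.ne', one_mul]
    refine Finset.sum_congr rfl fun w _ => ?_
    rw [Real.log_pow]
  obtain ⟨u, hu⟩ := hnear fun w => -((mult w.1 : ℝ) * (Real.log (y w.1) - Real.log Y))
  -- the logarithm of the balanced quantity
  set L : InfinitePlace K → ℝ := fun w => Real.log (w (u : K)) + Real.log (y w) - Real.log Y
    with hL
  have hLw : ∀ w : {w : InfinitePlace K // w ≠ w₀}, |(mult w.1 : ℝ) * L w.1| ≤ C := by
    intro w
    have h1 := hu w
    rw [logEmbedding_component] at h1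
    have e : (mult w.1 : ℝ) * L w.1 = (mult w.1 : ℝ) * Real.log (w.1 (u : K)) -
        -((mult w.1 : ℝ) * (Real.log (y w.1) - Real.log Y)) := by
      rw [hL]; ring
    rw [e]
    exact h1
  have hsum : ∑ w : InfinitePlace K, (mult w : ℝ) * L w = 0 := by
    have h1 := NumberField.Units.sum_mult_mul_log u
    have e : ∑ w : InfinitePlace K, (mult w : ℝ) * L w =
        ∑ w : InfinitePlace K, (mult w : ℝ) * Real.log (w (u : K)) +
        ∑ w : InfinitePlace K, (mult w : ℝ) * Real.log (y w) -
        (∑ w : InfinitePlace K, (mult w : ℝ)) * Real.log Y := by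
      rw [Finset.sum_mul, ← Finset.sum_add_distrib, ← Finset.sum_sub_distrib]
      refine Finset.sum_congr rfl fun w _ => ?_
      rw [hL]; ring
    rw [e, h1, ← hlogY, sum_mult_real]
    ring
  have hL0 : |(mult (w₀ : InfinitePlace K) : ℝ) * L w₀| ≤ n * C := by
    rw [Fintype.sum_eq_add_sum_subtype_ne _ w₀] at hsum
    have h1 : (mult (w₀ : InfinitePlace K) : ℝ) * L w₀ =
        -∑ w : {w : InfinitePlace K // w ≠ w₀}, (mult w.1 : ℝ) * L w.1 := by linarith
    rw [h1, abs_neg]
    refine (Finset.abs_sum_le_sum_abs _ _).trans ?_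
    refine (Finset.sum_le_card_nsmul _ _ C fun w _ => hLw w).trans ?_
    rw [nsmul_eq_mul, hn]
    rfl
  have hmult : ∀ w : InfinitePlace K, |L w| ≤ |(mult w : ℝ) * L w| := by
    intro w
    rw [abs_mul, Nat.abs_cast]
    exact le_mul_of_one_le_left (abs_nonneg _) (one_le_mult_real K w)
  have hall : ∀ w, |L w| ≤ C + n * C := by
    intro w
    rcases eq_or_ne w w₀ with rfl | hw
    · have := (hmult w₀).trans hL0
      linarith
    · have := (hmult w).trans (hLw ⟨w, hw⟩)
      have h2 : 0 ≤ n * C := by positivity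
      linarith
  refine ⟨u, fun w => ?_⟩
  have hw : 0 < w (u : K) := NumberField.Units.pos_at_place u w
  have hexp : w (u : K) * y w = Real.exp (L w) * Y := by
    rw [hL]
    simp only
    rw [Real.exp_sub, Real.exp_add, Real.exp_log hw, Real.exp_log (hy w), Real.exp_log hYpos]
    field_simp
  have habs := abs_le.mp (hall w)
  constructor
  · rw [hexp]
    exact mul_le_mul_of_nonneg_right (Real.exp_le_exp.mpr habs.2) hYpos.le
  · rw [hexp, ← mul_assoc, ← Real.exp_add]
    refine le_mul_of_one_le_left hYpos.le (Real.one_le_exp ?_)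
    linarith [habs.1]

/-! ### Counting units -/

/-- the unit coordinates -/
lemma coords (u : (𝓞 K)ˣ) : ∃ (ζ : torsion K) (e : Fin (rank K) → ℤ),
    u = ζ * ∏ i, (fundSystem K i) ^ (e i) ∧
    ∀ i, (rb K).repr (logEmbedding K (Additive.ofMul u)) i = e i := by
  obtain ⟨⟨ζ, e⟩, he, -⟩ := exist_unique_eq_mul_prod K u
  refine ⟨ζ, e, he, fun i => ?_⟩
  have h1 : logEmbedding K (Additive.ofMul u) =
      ∑ i, (e i : ℝ) • (rb K i) := by
    have h2 : logEmbedding K (Additive.ofMul (ζ : (𝓞 K)ˣ)) = 0 :=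
      logEmbedding_eq_zero_iff.mpr ζ.2
    conv_lhs => rw [he]
    rw [ofMul_mul, map_add, h2, zero_add, ofMul_prod, map_sum]
    refine Finset.sum_congr rfl fun i _ => ?_
    rw [ofMul_zpow, map_zsmul, logEmbedding_fundSystem]
    have h3 : rb K i = (basisUnitLattice K i : logSpace K) :=
      (basisUnitLattice K).ofZLatticeBasis_apply ℝ (unitLattice K) i
    rw [h3, Int.cast_smul_eq_zsmul]
  rw [h1]
  simp [Finsupp.single_apply, map_sum]

/-- the log embedding of a unit in a box -/
lemma log_bound (u : (𝓞 K)ˣ) {Y : ℝ} (hY : 1 ≤ Y) (h : ∀ w : InfinitePlace K, w (u : K) ≤ Y) :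
    ‖logEmbedding K (Additive.ofMul u)‖ ≤ dg K * Real.log Y := by
  have hlog : 0 ≤ Real.log Y := Real.log_nonneg hY
  have hd := dg_pos K
  rw [pi_norm_le_iff_of_nonneg (by positivity)]
  intro w
  rw [logEmbedding_component, Real.norm_eq_abs, abs_le]
  have hup : ∀ v : InfinitePlace K, (mult v : ℝ) * Real.log (v (u : K)) ≤
      (mult v : ℝ) * Real.log Y := fun v =>
    mul_le_mul_of_nonneg_left (Real.log_le_log (NumberField.Units.pos_at_place u v) (h v))
      (Nat.cast_nonneg _)
  have hm : ∑ v : InfinitePlace K, (mult v : ℝ) * Real.log Y = dg K * Real.log Y := by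
    rw [← Finset.sum_mul, sum_mult_real]
  have hnn : ∀ v : InfinitePlace K, 0 ≤ (mult v : ℝ) * Real.log Y := fun v => by positivity
  have hle : (mult w.1 : ℝ) * Real.log Y ≤ dg K * Real.log Y := by
    rw [← hm]
    exact Finset.single_le_sum (f := fun v : InfinitePlace K => (mult v : ℝ) * Real.log Y)
      (fun v _ => hnn v) (Finset.mem_univ w.1)
  constructor
  · have h1 := NumberField.Units.sum_mult_mul_log u
    rw [← Finset.add_sum_erase _ _ (Finset.mem_univ w.1)] at h1
    have h2 : ∑ v ∈ Finset.univ.erase w.1, (mult v : ℝ) * Real.log (v (u : K)) ≤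
        ∑ v ∈ Finset.univ.erase w.1, (mult v : ℝ) * Real.log Y :=
      Finset.sum_le_sum fun v _ => hup v
    have h3 : ∑ v ∈ Finset.univ.erase w.1, (mult v : ℝ) * Real.log Y ≤ dg K * Real.log Y := by
      rw [← hm]
      exact Finset.sum_le_sum_of_subset_of_nonneg (Finset.erase_subset _ _) fun v _ _ => hnn v
    linarith
  · exact (hup w.1).trans hle

theorem stmtUC : StmtUC K := by
  intro ε hε
  have _ : Fintype (torsion K) := Fintype.ofFinite _
  set r : ℕ := rank K with hr
  -- bound for the coordinates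
  obtain ⟨A, hA0, hA⟩ : ∃ A : ℝ, 0 < A ∧ ∀ (x : logSpace K) (i : Fin r),
      |(rb K).repr x i| ≤ A * ‖x‖ := by
    refine ⟨1 + ∑ i, ‖LinearMap.toContinuousLinearMap ((rb K).coord i)‖, ?_, ?_⟩
    · have : 0 ≤ ∑ i, ‖LinearMap.toContinuousLinearMap ((rb K).coord i)‖ :=
        Finset.sum_nonneg fun i _ => norm_nonneg _
      linarith
    · intro x i
      have h1 := (LinearMap.toContinuousLinearMap ((rb K).coord i)).le_opNorm x
      have h2 : ‖LinearMap.toContinuousLinearMap ((rb K).coord i)‖ ≤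
          ∑ i, ‖LinearMap.toContinuousLinearMap ((rb K).coord i)‖ :=
        Finset.single_le_sum (f := fun i => ‖LinearMap.toContinuousLinearMap ((rb K).coord i)‖)
          (fun i _ => norm_nonneg _) (Finset.mem_univ i)
      have h3 : (LinearMap.toContinuousLinearMap ((rb K).coord i)) x = (rb K).repr x i := rfl
      rw [h3, Real.norm_eq_abs] at h1
      refine h1.trans (mul_le_mul_of_nonneg_right (by linarith) (norm_nonneg _))
  have hd := dg_pos K
  set δ : ℝ := ε / (r + 1) with hδ
  have hr1 : (0 : ℝ) < r + 1 := by positivity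
  have hδ0 : 0 < δ := by positivity
  set T : ℝ := (Fintype.card (torsion K) : ℝ) with hT
  set E : ℝ := 2 * (A * dg K) / δ + 1 with hE
  have hE0 : 0 < E := by positivity
  have hT0 : 0 < T := by
    rw [hT]; exact_mod_cast Fintype.card_pos
  refine ⟨T * E ^ r, by positivity, fun Y hY S hS => ?_⟩
  have hlog : 0 ≤ Real.log Y := Real.log_nonneg hY
  have hY0 : 0 < Y := by linarith
  set N : ℕ := ⌊A * (dg K * Real.log Y)⌋₊ with hN
  have hN' : (N : ℝ) ≤ A * (dg K * Real.log Y) := Nat.floor_le (by positivity)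
  -- the injection
  let f : (𝓞 K)ˣ → torsion K × (Fin r → ℤ) := fun u =>
    ((coords K u).choose, (coords K u).choose_spec.choose)
  have hf1 : ∀ u, u = (f u).1 * ∏ i, (fundSystem K i) ^ ((f u).2 i) := fun u =>
    (coords K u).choose_spec.choose_spec.1
  have hf2 : ∀ u i, (rb K).repr (logEmbedding K (Additive.ofMul u)) i = (f u).2 i := fun u =>
    (coords K u).choose_spec.choose_spec.2
  have hinj : Function.Injective f := by
    intro u v huv
    rw [hf1 u, hf1 v, huv]
  have hmaps : ∀ u ∈ S, f u ∈ (Finset.univ : Finset (torsion K)) ×ˢ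
      (Fintype.piFinset fun _ : Fin r => Finset.Icc (-(N : ℤ)) N) := by
    intro u hu
    rw [Finset.mem_product]
    refine ⟨Finset.mem_univ _, ?_⟩
    rw [Fintype.mem_piFinset]
    intro i
    have h1 : |(((f u).2 i : ℤ) : ℝ)| ≤ A * (dg K * Real.log Y) := by
      rw [← hf2 u i]
      exact (hA _ i).trans (mul_le_mul_of_nonneg_left (log_bound K u hY (hS u hu)) hA0.le)
    have h2 : |(f u).2 i| ≤ (N : ℤ) := by
      have h3 : (((|(f u).2 i| : ℤ)).toNat : ℝ) ≤ A * (dg K * Real.log Y) := by
        have h4 : (((|(f u).2 i| : ℤ)).toNat : ℝ) = |(((f u).2 i : ℤ) : ℝ)| := by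
          have h5 : (((|(f u).2 i| : ℤ)).toNat : ℤ) = |(f u).2 i| :=
            Int.toNat_of_nonneg (abs_nonneg _)
          have h6 : ((((|(f u).2 i| : ℤ)).toNat : ℤ) : ℝ) = ((|(f u).2 i| : ℤ) : ℝ) := by rw [h5]
          rw [Int.cast_abs] at h6
          rw [← h6, Int.cast_natCast]
        rw [h4]; exact h1
      have h6 := Nat.le_floor h3
      omega
    rw [Finset.mem_Icc]
    exact abs_le.mp h2
  have hcard := Finset.card_le_card_of_injOn f (fun u hu => hmaps u hu) (hinj.injOn)
  rw [Finset.card_product, Fintype.card_piFinset] at hcard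
  simp only [Int.card_Icc, Finset.prod_const, Finset.card_univ, Fintype.card_fin] at hcard
  have hcard' : (S.card : ℝ) ≤ T * (2 * (N : ℝ) + 1) ^ r := by
    have h1 : ((N : ℤ) + 1 - -(N : ℤ)).toNat = 2 * N + 1 := by omega
    rw [h1] at hcard
    have h2 : (S.card : ℝ) ≤ ((Fintype.card (torsion K) * (2 * N + 1) ^ r : ℕ) : ℝ) := by
      exact_mod_cast hcard
    push_cast at h2
    exact h2
  -- the logarithm against a power
  have hlogle : Real.log Y ≤ Y ^ δ / δ := Real.log_le_rpow_div hY0.le hδ0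
  have hYδ : 1 ≤ Y ^ δ := Real.one_le_rpow hY hδ0.le
  have hbase : 2 * (N : ℝ) + 1 ≤ E * Y ^ δ := by
    calc 2 * (N : ℝ) + 1 ≤ 2 * (A * (dg K * Real.log Y)) + 1 := by linarith
      _ ≤ 2 * (A * (dg K * (Y ^ δ / δ))) + Y ^ δ := by
          have : A * (dg K * Real.log Y) ≤ A * (dg K * (Y ^ δ / δ)) := by gcongr
          linarith
      _ = E * Y ^ δ := by rw [hE]; ring
  calc (S.card : ℝ) ≤ T * (2 * (N : ℝ) + 1) ^ r := hcard'
    _ ≤ T * (E * Y ^ δ) ^ r := by gcongr
    _ = T * E ^ r * (Y ^ δ) ^ r := by rw [mul_pow]; ring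
    _ ≤ T * E ^ r * Y ^ ε := by
        refine mul_le_mul_of_nonneg_left ?_ (by positivity)
        rw [← Real.rpow_natCast, ← Real.rpow_mul hY0.le]
        apply Real.rpow_le_rpow_of_exponent_le hY
        rw [hδ, div_mul_eq_mul_div, div_le_iff₀ hr1]
        nlinarith

end Pool.Agent.W340.NF
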